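import Mathlib
import Pool.Agent.N943.RC.Stm

/-!
# RC/D1b: traces of the sets of non-preserved labelled pairs
-/

set_option autoImplicit false

namespace Pool.Agent.N507.RC

open Finset MvPolynomial N943.RC Pool.Agent.R980
open scoped Classical

/-- the polynomial `|x_a - x_b|^2 - |v_a - v_b|^2` -/
noncomputable def pp {n d : ℕ} (v : Fin n → Pt d) (a b : Fin n) :
    MvPolynomial (Fin n × Fin d) ℝ :=
  (∑ j : Fin d, (X (a, j) - X (b, j)) ^ 2) - C ((dist (v a) (v b)) ^ 2)

theorem deg_pp {n d : ℕ} (v : Fin n → Pt d) (a b : Fin n) : (pp v a b).totalDegree ≤ 2 := by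
  unfold pp
  refine (totalDegree_sub _ _).trans (max_le ?_ ?_)
  · refine totalDegree_finsetSum_le fun j _ => ?_
    refine (totalDegree_pow _ _).trans ?_
    have : (X (a, j) - X (b, j) : MvPolynomial (Fin n × Fin d) ℝ).totalDegree ≤ 1 := by
      refine (totalDegree_sub _ _).trans (max_le ?_ ?_) <;> simp
    omega
  · rw [totalDegree_C]
    exact Nat.zero_le _

/-- the coordinates of a realization -/
noncomputable def co {n d : ℕ} (x : Fin n → Pt d) : Fin n × Fin d → ℝ := fun p => x p.1 p.2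

theorem eval_pp {n d : ℕ} (v x : Fin n → Pt d) (a b : Fin n) :
    MvPolynomial.eval (co x) (pp v a b) = 0 ↔ dist (x a) (x b) = dist (v a) (v b) := by
  unfold pp co
  simp only [map_sub, map_sum, map_pow, eval_X, eval_C]
  have h : ∑ j : Fin d, (x a j - x b j) ^ 2 = dist (x a) (x b) ^ 2 := by
    rw [EuclideanSpace.dist_eq, Real.sq_sqrt (sum_nonneg fun _ _ => sq_nonneg _)]
    refine sum_congr rfl fun j _ => ?_
    rw [Real.dist_eq, sq_abs]
  rw [h, sub_eq_zero]
  exact sq_eq_sq₀ dist_nonneg dist_nonneg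

theorem pres_iff {n d : ℕ} (v x : Fin n → Pt d) (e : Sym2 (Fin n)) :
    Pres v x e ↔ dist (x (Quot.out e).1) (x (Quot.out e).2)
      = dist (v (Quot.out e).1) (v (Quot.out e).2) := by
  constructor
  · intro h
    exact h _ _ (Quot.out_eq e).symm
  · intro h a b hab
    have he : s((Quot.out e).1, (Quot.out e).2) = s(a, b) := by
      rw [← hab]
      exact Quot.out_eq e
    rcases Sym2.eq_iff.1 he with ⟨h1, h2⟩ | ⟨h1, h2⟩
    · rw [← h1, ← h2]
      exact h
    · rw [← h1, ← h2, dist_comm, h, dist_comm]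

theorem traces (h : N943.RC.ZeroPat) : N943.RC.Traces := by
  intro n d R v X
  set f : {e // e ∈ X} → MvPolynomial (Fin n × Fin d) ℝ := fun e =>
    pp v (Quot.out e.1.1.1).1 (Quot.out e.1.1.1).2 with hf
  have h1 := h (Fin n × Fin d) {e // e ∈ X} 2 f (fun i => deg_pp _ _ _)
  set A : Set (Finset {e // e ∈ X}) := Set.range fun z : Fin n × Fin d → ℝ =>
    (univ.filter fun i : {e // e ∈ X} => MvPolynomial.eval z (f i) = 0) with hA
  have hfin : A.Finite := Set.toFinite _
  have h2 : (Set.range fun x : Fin n → Pt d => NPL R v x ∩ X) ⊆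
      (fun S : Finset {e // e ∈ X} => (univ \ S).map (Function.Embedding.subtype _)) '' A := by
    rintro _ ⟨x, rfl⟩
    refine ⟨_, ⟨co x, rfl⟩, ?_⟩
    ext e
    simp only [mem_map, mem_sdiff, mem_univ, true_and, mem_filter, Function.Embedding.coe_subtype,
      Subtype.exists, exists_and_right, exists_eq_right, NPL, mem_inter, hf, eval_pp]
    rw [pres_iff]
    constructor
    · rintro ⟨h3, h4⟩
      exact ⟨h4, h3⟩
    · rintro ⟨h3, h4⟩
      exact ⟨h4, h3⟩
  calc _ ≤ ((fun S : Finset {e // e ∈ X} => (univ \ S).map (Function.Embedding.subtype _)) '' A).ncard :=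
        Set.ncard_le_ncard h2 (hfin.image _)
    _ ≤ A.ncard := Set.ncard_image_le hfin
    _ ≤ _ := h1
    _ = _ := by
        simp only [Fintype.card_coe, Fintype.card_prod, Fintype.card_fin]
        rw [mul_comm X.card 2, mul_comm n d]

end Pool.Agent.N507.RC
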