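import Mathlib
import Pool.Agent.N943.RC.Stm

/-!
# RC/D1: zero patterns of polynomials (Ronyai-Babai-Ganapathy)
-/

set_option autoImplicit false

namespace Pool.Agent.N507.RC

open Finset MvPolynomial

/-- the exponent vectors of total degree at most `m` -/
noncomputable def expo (σ : Type) [Fintype σ] [DecidableEq σ] (m : ℕ) : Finset (σ →₀ ℕ) :=
  (range (m + 1)).biUnion fun i => (univ : Finset σ).finsuppAntidiag i

theorem mem_expo {σ : Type} [Fintype σ] [DecidableEq σ] {m : ℕ} {n : σ →₀ ℕ} :
    n ∈ expo σ m ↔ (n.sum fun _ e => e) ≤ m := by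
  unfold expo
  simp only [mem_biUnion, mem_range, mem_finsuppAntidiag, subset_univ, and_true]
  have h : (n.sum fun _ e => e) = (univ : Finset σ).sum n := by
    rw [Finsupp.sum_fintype]
    simp
  rw [h]
  constructor
  · rintro ⟨i, hi, h2⟩
    omega
  · intro h2
    exact ⟨_, by omega, rfl⟩

theorem card_expo (σ : Type) [Fintype σ] [DecidableEq σ] (m : ℕ) :
    (expo σ m).card = (m + Fintype.card σ).choose (Fintype.card σ) := by
  unfold expo
  rw [card_biUnion]
  · rw [← Nat.sum_range_multichoose]
    refine sum_congr rfl fun i _ => ?_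
    rw [card_finsuppAntidiag_nat_eq_multichoose, card_univ]
  · intro i _ j _ hij
    rw [Function.onFun, disjoint_left]
    intro n h1 h2
    rw [mem_finsuppAntidiag] at h1 h2
    exact hij (h1.1.symm.trans h2.1)

theorem finrank_le (σ : Type) [Fintype σ] (m : ℕ) :
    Module.finrank ℝ (restrictTotalDegree σ ℝ m) = (m + Fintype.card σ).choose (Fintype.card σ) := by
  classical
  have e : {n : σ →₀ ℕ | (n.sum fun _ e => e) ≤ m} = ((expo σ m : Finset (σ →₀ ℕ)) : Set (σ →₀ ℕ)) := by
    ext n
    simp [mem_expo]
  have h1 : Module.finrank ℝ (restrictTotalDegree σ ℝ m)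
      = Nat.card {n : σ →₀ ℕ | (n.sum fun _ e => e) ≤ m} :=
    Module.finrank_eq_nat_card_basis (basisRestrictSupport ℝ _)
  rw [h1, e, ← card_expo]
  simp

theorem zeroPat : N943.RC.ZeroPat := by
  classical
  intro σ ι _ _ D f hf
  set P : (σ → ℝ) → Finset ι := fun z => univ.filter fun i : ι => MvPolynomial.eval z (f i) = 0
    with hP
  have hfin : (Set.range P).Finite := Set.toFinite _
  have hw : ∀ S : Set.range P, ∃ z : σ → ℝ, P z = S.1 := fun S => S.2
  choose z hz using hw
  set g : Set.range P → MvPolynomial σ ℝ := fun S => ∏ i ∈ univ \ S.1, f i with hg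
  have hdeg : ∀ S, (g S).totalDegree ≤ Fintype.card ι * D := by
    intro S
    refine (totalDegree_finsetProd _ _).trans ?_
    refine (sum_le_card_nsmul _ _ D fun i _ => hf i).trans ?_
    rw [smul_eq_mul]
    exact Nat.mul_le_mul_right _ (card_le_univ _)
  have heval : ∀ S T, MvPolynomial.eval (z T) (g S) ≠ 0 ↔ T.1 ⊆ S.1 := by
    intro S T
    rw [hg]
    simp only [map_prod]
    rw [prod_ne_zero_iff]
    constructor
    · intro h i hi
      by_contra hiS
      have := h i (mem_sdiff.2 ⟨mem_univ _, hiS⟩)
      rw [← hz T, hP] at hi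
      exact this (mem_filter.1 hi).2
    · intro h i hi h0
      have : i ∈ P (z T) := mem_filter.2 ⟨mem_univ _, h0⟩
      rw [hz T] at this
      exact (mem_sdiff.1 hi).2 (h this)
  have : Fintype (Set.range P) := hfin.fintype
  have hli : LinearIndependent ℝ g := by
    rw [Fintype.linearIndependent_iff]
    intro c hc
    by_contra hne
    push Not at hne
    obtain ⟨S0, hS0⟩ := hne
    obtain ⟨T, hT, hmax⟩ := exists_max_image (univ.filter fun S : Set.range P => c S ≠ 0)
      (fun S => S.1.card) ⟨S0, mem_filter.2 ⟨mem_univ _, hS0⟩⟩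
    have h1 := congrArg (MvPolynomial.eval (z T)) hc
    rw [map_sum, map_zero] at h1
    rw [sum_eq_single T] at h1
    · rw [smul_eval] at h1
      rcases mul_eq_zero.1 h1 with h2 | h2
      · exact (mem_filter.1 hT).2 h2
      · exact (heval T T).2 (subset_refl _) h2
    · intro S _ hST
      rw [smul_eval]
      by_cases hcS : c S = 0
      · rw [hcS, zero_mul]
      · have h3 : MvPolynomial.eval (z T) (g S) = 0 := by
          by_contra h4
          have h5 := (heval S T).1 h4
          have h6 := hmax S (mem_filter.2 ⟨mem_univ _, hcS⟩)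
          exact hST (Subtype.ext (eq_of_subset_of_card_le h5 h6).symm)
        rw [h3, mul_zero]
    · intro h
      exact absurd (mem_univ _) h
  have hli' : LinearIndependent ℝ (fun S : Set.range P =>
      (⟨g S, (mem_restrictTotalDegree _ _ _).2 (hdeg S)⟩ :
        restrictTotalDegree σ ℝ (Fintype.card ι * D))) :=
    LinearIndependent.of_comp (restrictTotalDegree σ ℝ (Fintype.card ι * D)).subtype hli
  have := hli'.fintype_card_le_finrank
  rw [finrank_le] at this
  calc (Set.range fun z : σ → ℝ =>
        (univ.filter fun i : ι => MvPolynomial.eval z (f i) = 0)).ncard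
      = (Set.range P).ncard := by
        congr 1
    _ = Fintype.card (Set.range P) := by
        rw [← Nat.card_eq_fintype_card, Nat.card_coe_set_eq]
    _ ≤ _ := this

end Pool.Agent.N507.RC
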